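import Pool.Agent.Helper15.RA.GoalsK

/-!
# Project RA, packet KB: the step for `(b)`.
-/

set_option autoImplicit false

open LaurentPolynomial

noncomputable section

namespace Pool.Agent.Helper97.RA

open Pool.Agent.Helper15.RA

variable {I W V H : Type} [Group W] [Ring H] [Algebra ℤ[T;T⁻¹] H] {X : Ctx I W V H}

theorem t_mul {x y : W} (h : X.sl (x * y) = X.sl x + X.sl y) :
    X.D.t x * X.D.t y = X.D.t (x * y) := X.D.mul x y (X.len x y h)

theorem t_comm_adj (e1 : E_1) (t1 : X.D.t 1 = 1) {u v : V} (huv : X.Γ.Adj u v) {h l : W} (hh : h ∈ X.G u)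
    (hl : l ∈ X.G v) : Commute (X.D.t h) (X.D.t l) := by
  by_cases h0 : h = 1
  · rw [h0, t1]
    exact Commute.one_left _
  by_cases l0 : l = 1
  · rw [l0, t1]
    exact Commute.one_right _
  have hcl : IsClq X.Γ X.G [h, l] := by
    refine ⟨?_, ?_⟩
    · intro k hk
      rcases List.mem_cons.1 hk with rfl | hk
      · exact ⟨h0, u, hh⟩
      · rw [List.mem_singleton] at hk
        subst hk
        exact ⟨l0, v, hl⟩
    · rw [List.pairwise_cons]
      refine ⟨fun k hk => ?_, List.pairwise_singleton _ _⟩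
      rw [List.mem_singleton] at hk
      subst hk
      exact ⟨u, v, huv, hh, hl⟩
  have h2 : X.sl (h * l) = 2 := by
    have := (e1 V W X.Γ X.G X.sl X.gp).1 [h, l] hcl
    simpa using this
  have hc : h * l = l * h := X.gp.comm u v huv h hh l hl
  have sh : X.sl h = 1 := X.gp.syl u h hh h0
  have sl' : X.sl l = 1 := X.gp.syl v l hl l0
  show X.D.t h * X.D.t l = X.D.t l * X.D.t h
  rw [t_mul (by rw [h2, sh, sl']), t_mul (by rw [← hc, h2, sh, sl']), hc]

theorem c_comm_adj (e1 : E_1) (t1 : X.D.t 1 = 1) {u v : V} (huv : X.Γ.Adj u v) {h k : W} (hh : h ∈ X.G u)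
    (hk : k ∈ X.G v) : Commute (X.D.t h) (X.D.c k) := by
  rw [← X.D.t.linearCombination_repr (X.D.c k), Finsupp.linearCombination_apply, Finsupp.sum]
  refine Commute.sum_right _ _ _ fun l hl => Commute.smul_right ?_ _
  exact t_comm_adj e1 t1 huv hh (X.supp v k hk l (Finsupp.mem_support_iff.1 hl))

theorem prod_comm_adj {u : V} {g : W} (hg : g ∈ X.G u) (K : List W)
    (hK : ∀ k ∈ K, ∃ v, X.Γ.Adj u v ∧ k ∈ X.G v) : Commute g K.prod := by
  refine Commute.list_prod_right _ _ fun k hk => ?_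
  obtain ⟨v, huv, hkv⟩ := hK k hk
  exact X.gp.comm u v huv g hg k hkv

theorem cprod_comm_adj (e1 : E_1) (t1 : X.D.t 1 = 1) {u : V} {h : W} (hh : h ∈ X.G u) (K : List W)
    (hK : ∀ k ∈ K, ∃ v, X.Γ.Adj u v ∧ k ∈ X.G v) : Commute (X.D.t h) (K.map X.D.c).prod := by
  refine Commute.list_prod_right _ _ fun c hc => ?_
  obtain ⟨k, hk, rfl⟩ := List.mem_map.1 hc
  obtain ⟨v, huv, hkv⟩ := hK k hk
  exact c_comm_adj e1 t1 huv hh hkv

theorem eFalse (K : List W) : ((K.map fun k => (k, false)).map X.e) = K.map X.D.c := by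
  rw [List.map_map]
  refine List.map_congr_left fun k _ => ?_
  simp [Ctx.e]

omit [Group W] in
theorem fstFlag (K : List W) (b : Bool) : ((K.map fun k => (k, b)).map Prod.fst) = K := by
  rw [List.map_map]
  exact List.map_id'' (fun _ => rfl) K

/-- It is enough to treat one flagging. -/
theorem flag_suffices (hD : K_D) {n : ℕ} (hS : X.SB n) {M : ℕ} {x y : W} {F F' : List (W × Bool)}
    (hF : F.map Prod.fst = F'.map Prod.fst) (hR : X.Red x (F.map Prod.fst) y)
    (hn : X.sl x + F.length + X.sl y ≤ n)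
    (h : X.LamT M (X.sl x + F.length + X.sl y)
      ((M : ℤ) - X.aK (F.map Prod.fst) - X.eps M x (F.map Prod.fst) y)
      (X.D.t x * (F'.map X.e).prod * X.D.t y)) : X.PB M x F y := by
  have h1 := hD I W V H X n hS M x F F' y hF hR hn
  have h2 := (h1.mono (Nat.sub_le _ _) le_rfl).add h
  rw [sub_add_cancel] at h2
  exact h2

theorem case1 (hT : K_T) (i1 : I_1) (i2 : I_2) (e2 : E_2) {M : ℕ} {x y : W} {K : List W} (e1 : E_1)
    (hR : X.Red x K y) (ha : M + 1 ≤ X.aK K) (N : ℕ) :
    X.LamT M N ((M : ℤ) - X.aK K - X.eps M x K y) (X.D.t x * (K.map X.D.c).prod * X.D.t y) := by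
  obtain ⟨hc, hx, hy⟩ := hR
  obtain ⟨-, -, e3, -, e5, -, -, e8, -⟩ := e2 I W V H X
  have hsl : X.sl K.prod = K.length := (e1 V W X.Γ X.G X.sl X.gp).1 K hc
  have hG : X.Ge (M + 1) K.prod := e5 _ _ _ ha (e8 K hc)
  have hGx : X.Ge M (x * K.prod) := e3 M x K.prod (by rw [hx, hsl]) (Or.inr (e5 _ _ _ (Nat.le_succ M) hG))
  have hGy : X.Ge M (K.prod * y) := e3 M K.prod y (by rw [hy, hsl]) (Or.inl (e5 _ _ _ (Nat.le_succ M) hG))
  have heps : X.eps M x K y = 0 := by
    unfold Ctx.eps
    rw [if_neg]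
    push Not
    exact ⟨hGx, hGy⟩
  have hI : X.D.t x * (K.map X.D.c).prod * X.D.t y ∈ X.Idl M := by
    rw [← (i1 I W V H X).2.2.1 K hc]
    have h0 : X.C K.prod ∈ X.Idl M := Submodule.subset_span ⟨K.prod, hG, rfl⟩
    exact (i2 I W V H X M _ _ ((i2 I W V H X M _ (X.D.t x) h0).1)).2
  refine Ctx.LamT.of_idl hI ?_
  have := hT I W V H X x K y ⟨hc, hx, hy⟩
  rw [heps]
  exact this.mono (by omega)

theorem case2 (hE : K_E) (e1 : E_1) (e2 : E_2) {M n : ℕ} {x y : W} {K : List W}
    (hS : X.SA (n + 1)) (hR : X.Red x K y) (hn : X.sl x + K.length + X.sl y ≤ n)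
    (hN : X.sl (x * K.prod * y) = X.sl x + K.length + X.sl y) (ha : X.aK K ≤ M) :
    X.LamT M (X.sl x + K.length + X.sl y) ((M : ℤ) - X.aK K - X.eps M x K y)
      (X.D.t x * (K.map fun k => X.e (k, true)).prod * X.D.t y) := by
  obtain ⟨hc, hx, hy⟩ := hR
  obtain ⟨-, -, e3, -, e5, -, -, e8, -⟩ := e2 I W V H X
  have hsl : X.sl K.prod = K.length := (e1 V W X.Γ X.G X.sl X.gp).1 K hc
  have hGx : X.Ge (X.aK K) (x * K.prod) := e3 _ x K.prod (by rw [hx, hsl]) (Or.inr (e8 K hc))
  have hGy : X.Ge (X.aK K) (K.prod * y) := e3 _ K.prod y (by rw [hy, hsl]) (Or.inl (e8 K hc))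
  have hk0 : 0 ≤ (M : ℤ) - X.aK K - X.eps M x K y := by
    unfold Ctx.eps
    split_ifs with h
    · have : X.aK K < M := by
        by_contra hlt
        push Not at hlt
        rcases h with h | h
        · exact h (e5 _ _ _ hlt hGx)
        · exact h (e5 _ _ _ hlt hGy)
      omega
    · omega
  have hKE := hE I W V H X x K y hc hN
  set Z := X.D.t x * (K.map fun k => X.e (k, true)).prod * X.D.t y - X.D.t (x * K.prod * y) with hZ
  have hZL : X.LamT M (X.sl x + K.length + X.sl y) 0 Z := by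
    rw [← X.D.t.linearCombination_repr Z, Finsupp.linearCombination_apply, Finsupp.sum]
    refine Ctx.LamT.sum fun w hw => ?_
    have h0 := (hKE w).2 (Finsupp.mem_support_iff.1 hw)
    have h1 := (hS M w (by omega)).1
    exact Ctx.LamT.smul_le ((hKE w).1.mono (by omega : (-1 : ℤ) ≤ 0)) h1 (by omega) (by omega)
  have h2 := (hS M (x * K.prod * y) (by omega)).1
  rw [hN] at h2
  have h3 := hZL.add h2
  rw [hZ, sub_add_cancel] at h3
  exact h3.mono le_rfl hk0

theorem case3 (e1 : E_1) (e2 : E_2) (h1 : H_1) (i1 : I_1) (hP : K_P) {M n : ℕ} {x y : W} {K : List W}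
    (hS : X.SB n) (hR : X.Red x K y) (hn : X.sl x + K.length + X.sl y ≤ n)
    (hN : X.sl (x * K.prod * y) ≠ X.sl x + K.length + X.sl y) :
    X.LamT M (X.sl x + K.length + X.sl y) ((M : ℤ) - X.aK K - X.eps M x K y)
      (X.D.t x * (K.map X.D.c).prod * X.D.t y) := by
  obtain ⟨hc, hx, hy⟩ := hR
  obtain ⟨E21, E22, E23, -, -, -, -, -, -⟩ := e2 I W V H X
  obtain ⟨E11, E12, E13, E14⟩ := e1 V W X.Γ X.G X.sl X.gp
  have t1 : X.D.t 1 = 1 := (h1 I W H X.M X.cs X.L X.D.toHecke0).1
  have hsl : X.sl K.prod = K.length := E11 K hc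
  obtain ⟨u, x', g, h, y', hg, hg1, hh, hh1, rfl, hsx, rfl, hsy, hK⟩ := E14 K x y hc hx hy hN
  have sg : X.sl g = 1 := X.gp.syl u g hg hg1
  have sh : X.sl h = 1 := X.gp.syl u h hh hh1
  set d := K.prod with hd
  set P := (K.map X.D.c).prod with hPdef
  have cg : g * d = d * g := prod_comm_adj hg K hK
  have ch : h * d = d * h := prod_comm_adj hh K hK
  -- lengths
  have hxd : x' * g * d = x' * d * g := by rw [mul_assoc, cg, mul_assoc]
  have hdy : d * (h * y') = h * (d * y') := by rw [← mul_assoc, ← ch, mul_assoc]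
  have l1 : X.sl (x' * d) = X.sl x' + K.length := by
    have a1 := X.gp.mul (x' * d) g
    have a2 := X.gp.mul x' d
    rw [← hxd, hx, sg] at a1
    omega
  have l2 : X.sl (d * y') = K.length + X.sl y' := by
    have a1 := X.gp.mul h (d * y')
    have a2 := X.gp.mul d y'
    rw [← hdy, hy, sh] at a1
    omega
  have l3 : X.sl (x' * d * g) = X.sl (x' * d) + 1 := by rw [← hxd, hx, l1]; omega
  have l4 : X.sl (h * (d * y')) = X.sl (d * y') + 1 := by rw [← hdy, hy, l2]; omega
  -- the product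
  have hprod : X.D.t (x' * g) * P * X.D.t (h * y') = X.D.t x' * ((X.D.t g * X.D.t h) * P) * X.D.t y' := by
    rw [← t_mul (X := X) (x := x') (y := g) (by rw [hsx, sg]), ← t_mul (X := X) (x := h) (y := y') (by rw [hsy, sh]; omega)]
    have : X.D.t h * P = P * X.D.t h := cprod_comm_adj e1 t1 hh K hK
    calc X.D.t x' * X.D.t g * P * (X.D.t h * X.D.t y') = X.D.t x' * (X.D.t g * (P * X.D.t h)) * X.D.t y' := by
          simp only [mul_assoc]
      _ = X.D.t x' * ((X.D.t g * X.D.t h) * P) * X.D.t y' := by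
          rw [← this]
          simp only [mul_assoc]
  obtain ⟨η, hη, hη2⟩ := hP I W V H X u g h hg hh
  rw [hprod, hη, Finsupp.sum, Finset.sum_mul, Finset.mul_sum, Finset.sum_mul]
  refine Ctx.LamT.sum fun l hl => ?_
  obtain ⟨m1, m2, m3, m4⟩ := hη2 l
  have hlG : l ∈ X.G u := m1 (Finsupp.mem_support_iff.1 hl)
  have hre : X.D.t x' * (η l • X.D.c l * P) * X.D.t y' = η l • (X.D.t x' * (X.D.c l * P) * X.D.t y') := by
    simp only [smul_mul_assoc, mul_smul_comm]
  rw [hre]
  by_cases hl1 : l = 1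
  · subst hl1
    have hc1 : X.D.c 1 = 1 := by
      rw [← (i1 I W V H X).1 u 1 (one_mem _), X.C_one]
    rw [hc1, one_mul]
    have hred : X.Red x' ((K.map fun k => (k, false)).map Prod.fst) y' := by
      rw [fstFlag]
      exact ⟨hc, l1, l2⟩
    have hPB := hS M x' (K.map fun k => (k, false)) y' hred (by rw [List.length_map]; omega)
    unfold Ctx.PB at hPB
    rw [fstFlag, eFalse, List.length_map] at hPB
    have heps : X.eps M (x' * g) K (h * y') ≤ X.eps M x' K y' := by
      refine X.eps_le (fun hG => ?_) (fun hG => ?_)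
      · rw [← hd, hxd]
        exact E23 M (x' * d) g (by rw [l3, sg]) (Or.inl hG)
      · rw [← hd, hdy]
        exact E23 M h (d * y') (by rw [l4, sh]; omega) (Or.inr hG)
    rw [X.a_one] at m2
    refine Ctx.LamT.smul_le m2 hPB (by omega) ?_
    push_cast
    omega
  · have hcl : X.Clq (l :: K) := by
      refine ⟨?_, ?_⟩
      · intro k hk
        rcases List.mem_cons.1 hk with rfl | hk
        · exact ⟨hl1, u, hlG⟩
        · exact hc.1 k hk
      · rw [List.pairwise_cons]
        refine ⟨fun k hk => ?_, hc.2⟩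
        obtain ⟨v, huv, hkv⟩ := hK k hk
        exact ⟨u, v, huv, hlG, hkv⟩
    have cl : l * d = d * l := prod_comm_adj hlG K hK
    have hxl : x' * (l * d) = x' * d * l := by rw [cl, mul_assoc]
    have hyl : l * d * y' = l * (d * y') := mul_assoc _ _ _
    have l5 : X.sl (x' * d * l) = X.sl (x' * d) + 1 := by
      have := E13 u g l (x' * d) 1 hg hg1 hlG hl1 (by rw [mul_one, l3, X.gp.one])
      rwa [mul_one, X.gp.one] at this
    have l6 : X.sl (l * (d * y')) = X.sl (d * y') + 1 := by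
      have := E13 u h l 1 (d * y') hh hh1 hlG hl1 (by rw [one_mul, l4, X.gp.one]; omega)
      rw [one_mul, X.gp.one] at this
      omega
    have hfl : ((((l, false) : W × Bool) :: K.map fun k => (k, false)).map Prod.fst) = l :: K := by
      rw [List.map_cons, fstFlag]
    have hel : (((((l, false) : W × Bool) :: K.map fun k => (k, false)).map X.e)).prod = X.D.c l * P := by
      rw [List.map_cons, eFalse, List.prod_cons]
      simp [Ctx.e, hPdef]
    have hred : X.Red x' ((((l, false) : W × Bool) :: K.map fun k => (k, false)).map Prod.fst) y' := by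
      rw [hfl]
      refine ⟨hcl, ?_, ?_⟩
      · rw [List.prod_cons, ← hd, hxl, l5, l1, List.length_cons]
        omega
      · rw [List.prod_cons, ← hd, hyl, l6, l2, List.length_cons]
        omega
    have hPB := hS M x' (((l, false) : W × Bool) :: K.map fun k => (k, false)) y' hred
      (by rw [List.length_cons, List.length_map]; omega)
    unfold Ctx.PB at hPB
    rw [hfl, hel, List.length_cons, List.length_map, X.aK_cons] at hPB
    have b1 := X.eps_le_one M (x' * g) K (h * y')
    have b2 := X.eps_nonneg M x' (l :: K) y'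
    by_cases hco : (η l).coeff (X.α l) = 0
    · refine Ctx.LamT.smul_le (degLE_sub_one m2 hco) hPB (by omega) ?_
      push_cast
      omega
    · obtain ⟨q1, q2⟩ := m4 hco
      have heps : X.eps M (x' * g) K (h * y') ≤ X.eps M x' (l :: K) y' := by
        refine X.eps_le (fun hG => ?_) (fun hG => ?_)
        · rw [List.prod_cons, ← hd, hxl] at hG
          rw [← hd, hxd]
          exact (E22 u l hlG g hg hl1 hg1 M (x' * d) q1.ge l5).2 hG
        · rw [List.prod_cons, ← hd, hyl] at hG
          rw [← hd, hdy]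
          exact (E21 u l hlG h hh hl1 hh1 M (d * y') q2.ge l6).2 hG
      refine Ctx.LamT.smul_le m2 hPB (by omega) ?_
      push_cast
      omega

theorem h_kb (h1 : H_1) (hE : K_E) (hT : K_T) (hD : K_D) (hP : K_P) (i1 : I_1) (i2 : I_2) (e1 : E_1)
    (e2 : E_2) : K_B := by
  intro I W V H _ _ _ X n hSB hSA M x F y hR hlt
  have hn : X.sl x + F.length + X.sl y ≤ n := by omega
  have hlen : (F.map Prod.fst).length = F.length := List.length_map _
  by_cases ha : M + 1 ≤ X.aK (F.map Prod.fst)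
  · refine flag_suffices hD hSB (F' := (F.map Prod.fst).map fun k => (k, false)) (fstFlag _ _).symm hR hn ?_
    rw [eFalse]
    exact case1 hT i1 i2 e2 e1 hR ha _
  · by_cases hN : X.sl (x * (F.map Prod.fst).prod * y) = X.sl x + (F.map Prod.fst).length + X.sl y
    · refine flag_suffices hD hSB (F' := (F.map Prod.fst).map fun k => (k, true)) (fstFlag _ _).symm hR hn ?_
      have h2 := case2 hE e1 e2 hSA hR (by rw [hlen]; exact hn) hN (M := M) (by omega)
      rw [hlen] at h2
      rw [List.map_map]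
      exact h2
    · refine flag_suffices hD hSB (F' := (F.map Prod.fst).map fun k => (k, false)) (fstFlag _ _).symm hR hn ?_
      rw [eFalse]
      have h3 := case3 e1 e2 h1 i1 hP hSB hR (by rw [hlen]; exact hn) hN (M := M)
      rw [hlen] at h3
      exact h3

end Pool.Agent.Helper97.RA
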