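import Pool.Agent.Helper15.RA.GoalsR

/-!
# Project RA, packet XC: existence of the elements `c_w`.
-/

set_option autoImplicit false

open LaurentPolynomial

noncomputable section

namespace Pool.Agent.Helper97.RA.XC

open Pool.Agent.Helper15.RA

theorem exists_mu (r : ℤ[T;T⁻¹]) : ∃ μ : ℤ[T;T⁻¹], invert μ = μ ∧ DegLE (-1) (r - μ) := by
  induction r using LaurentPolynomial.induction_on' with
  | add p q hp hq =>
    obtain ⟨μ, h1, h2⟩ := hp
    obtain ⟨ν, h3, h4⟩ := hq
    refine ⟨μ + ν, by rw [map_add, h1, h3], ?_⟩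
    rw [add_sub_add_comm]
    exact h2.add h4
  | C_mul_T n a =>
    have hdeg : ∀ m : ℤ, m ≤ -1 → DegLE (-1) (C a * T m : ℤ[T;T⁻¹]) := fun m hm =>
      (DegLE.C_le (k := 0) a le_rfl).mul_le (DegLE.T_le (k := m) le_rfl) (by omega)
    rcases lt_trichotomy n 0 with hn | hn | hn
    · exact ⟨0, map_zero _, by rw [sub_zero]; exact hdeg n (by omega)⟩
    · subst hn
      refine ⟨C a * T 0, by rw [map_mul, invert_C, invert_T, neg_zero], ?_⟩
      rw [sub_self]
      exact DegLE.zero _
    · refine ⟨C a * T n + C a * T (-n), ?_, ?_⟩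
      · rw [map_add, map_mul, map_mul, invert_C, invert_T, invert_T, neg_neg, add_comm]
      · rw [sub_add_cancel_left]
        exact (hdeg (-n) (by omega)).neg

variable {I W H : Type} [Group W] [Ring H] [Algebra ℤ[T;T⁻¹] H] {M : CoxeterMatrix I}
  {cs : CoxeterSystem M W} {L : W → ℕ}

theorem repr_mul_left (D : Hecke0 cs L H) (a Z : H) (y : W) :
    D.t.repr (a * Z) y = (D.t.repr Z).sum (fun z p => p * D.t.repr (a * D.t z) y) := by
  conv_lhs => rw [← D.t.linearCombination_repr Z]
  rw [Finsupp.linearCombination_apply, Finsupp.sum, Finset.mul_sum, map_sum, Finsupp.finsetSum_apply,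
    Finsupp.sum]
  refine Finset.sum_congr rfl (fun z _ => ?_)
  rw [mul_smul_comm, map_smul, Finsupp.smul_apply, smul_eq_mul]

theorem bar_smul (h1 : H_1) (D : Hecke1 cs L H) (p : ℤ[T;T⁻¹]) (Z : H) :
    D.bar (p • Z) = invert p • D.bar Z := by
  have t1 : D.t 1 = 1 := (h1 I W H M cs L D.toHecke0).1
  have barT : ∀ n : ℤ, D.bar ((T n : ℤ[T;T⁻¹]) • (1 : H)) = (T (-n) : ℤ[T;T⁻¹]) • (1 : H) := by
    intro n
    have h := (D.bar_t n 1).1
    rwa [inv_one, t1, mul_one] at h
  have barp : ∀ p : ℤ[T;T⁻¹], D.bar (p • (1 : H)) = invert p • (1 : H) := by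
    intro p
    induction p using LaurentPolynomial.induction_on' with
    | add p q hp hq => rw [add_smul, map_add, hp, hq, map_add, add_smul]
    | C_mul_T n a =>
      have h2 : ∀ m : ℤ, ((C a * T m : ℤ[T;T⁻¹]) • (1 : H)) = a • ((T m : ℤ[T;T⁻¹]) • (1 : H)) := by
        intro m
        have h3 : (C a : ℤ[T;T⁻¹]) = (a : ℤ[T;T⁻¹]) := by simp
        rw [h3, mul_smul, Int.cast_smul_eq_zsmul]
      rw [h2, map_zsmul, barT, map_mul, invert_C, invert_T, h2]
  rw [← smul_one_mul p Z, map_mul, barp, smul_one_mul]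

theorem bar_simple (h1 : H_1) (D : Hecke1 cs L H) (i : I) :
    D.bar (D.t (cs.simple i)) = D.t (cs.simple i) - xi (L (cs.simple i)) • 1 := by
  obtain ⟨t1, -, down, -⟩ := h1 I W H M cs L D.toHecke0
  have ss : D.t (cs.simple i) * D.t (cs.simple i) = xi (L (cs.simple i)) • D.t (cs.simple i) + 1 := by
    have h := down i (cs.simple i) (by rw [cs.simple_mul_simple_self, cs.length_one, cs.length_simple])
    rwa [cs.simple_mul_simple_self, t1] at h
  have h := (D.bar_t 0 (cs.simple i)).1
  rw [cs.inv_simple, T_zero, one_smul, neg_zero, T_zero, one_smul] at h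
  have h2 : D.t (cs.simple i) * (D.t (cs.simple i) - xi (L (cs.simple i)) • 1) = 1 := by
    rw [mul_sub, ss, mul_smul_comm, mul_one]
    abel
  calc D.bar (D.t (cs.simple i)) = D.bar (D.t (cs.simple i)) *
        (D.t (cs.simple i) * (D.t (cs.simple i) - xi (L (cs.simple i)) • 1)) := by rw [h2, mul_one]
    _ = _ := by rw [← mul_assoc, h, one_mul]

/-- The element `c_s`. -/
def cs0 (D : Hecke1 cs L H) (i : I) : H :=
  D.t (cs.simple i) + (T (-(L (cs.simple i) : ℤ)) : ℤ[T;T⁻¹]) • 1

theorem bar_cs0 (h1 : H_1) (D : Hecke1 cs L H) (i : I) : D.bar (cs0 D i) = cs0 D i := by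
  unfold cs0
  rw [map_add, bar_simple h1, bar_smul h1, map_one, invert_T, neg_neg, xi, sub_smul]
  abel

/-- Unitriangular at `w`. -/
def Tri (D : Hecke1 cs L H) (w : W) (Y : H) : Prop :=
  D.t.repr Y w = 1 ∧ ∀ y, D.t.repr Y y ≠ 0 → y = w ∨ cs.length y < cs.length w

theorem Tri.zero_of {D : Hecke1 cs L H} {w : W} {Y : H} (h : Tri D w Y) {y : W} (h1 : y ≠ w)
    (h2 : cs.length w ≤ cs.length y) : D.t.repr Y y = 0 := by
  by_contra h3
  rcases h.2 y h3 with h4 | h4
  · exact h1 h4
  · omega

/-- The properties of `c_w`. -/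
def KL (D : Hecke1 cs L H) (w : W) (Y : H) : Prop :=
  D.bar Y = Y ∧ Tri D w Y ∧ ∀ y, y ≠ w → DegLE (-1) (D.t.repr Y y)

theorem tri_mul (h1 : H_1) (D : Hecke1 cs L H) (i : I) (w' : W)
    (hw : cs.length (cs.simple i * w') = cs.length w' + 1) (Z : H) (hZ : Tri D w' Z) :
    Tri D (cs.simple i * w') (cs0 D i * Z) := by
  classical
  obtain ⟨t1, up, -, -, -, supp, -⟩ := h1 I W H M cs L D.toHecke0
  have hup : D.t (cs.simple i) * D.t w' = D.t (cs.simple i * w') := up i w' hw
  have key : ∀ y, D.t.repr (D.t (cs.simple i) * Z) y =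
      (D.t.repr Z).sum (fun z p => p * D.t.repr (D.t (cs.simple i) * D.t z) y) :=
    fun y => repr_mul_left D.toHecke0 _ _ y
  have h7 : ∀ z y, z ≠ w' → D.t.repr Z z ≠ 0 → D.t.repr (D.t (cs.simple i) * D.t z) y ≠ 0 →
      cs.length y < cs.length (cs.simple i * w') := by
    intro z y hz1 hz2 hz3
    have h8 := (hZ.2 z hz2).resolve_left hz1
    have h9 := supp (cs.simple i) z y hz3
    rw [cs.length_simple] at h9
    omega
  have hsupp1 : ∀ y, D.t.repr (D.t (cs.simple i) * Z) y ≠ 0 →
      y = cs.simple i * w' ∨ cs.length y < cs.length (cs.simple i * w') := by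
    intro y hy
    rw [key, Finsupp.sum] at hy
    obtain ⟨z, hz, hz2⟩ := Finset.exists_ne_zero_of_sum_ne_zero hy
    by_cases hz1 : z = w'
    · left
      subst hz1
      have h14 := right_ne_zero_of_mul hz2
      rw [hup, Module.Basis.repr_self, Finsupp.single_apply] at h14
      by_contra h15
      exact h14 (if_neg (Ne.symm h15))
    · right
      exact h7 z y hz1 (Finsupp.mem_support_iff.1 hz) (right_ne_zero_of_mul hz2)
  have hsupp2 : ∀ y, D.t.repr Z y ≠ 0 → cs.length y < cs.length (cs.simple i * w') := by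
    intro y hy
    rcases hZ.2 y hy with h | h
    · rw [h]; omega
    · omega
  have hexp : ∀ y, D.t.repr (cs0 D i * Z) y = D.t.repr (D.t (cs.simple i) * Z) y +
      T (-(L (cs.simple i) : ℤ)) * D.t.repr Z y := by
    intro y
    unfold cs0
    rw [add_mul, smul_one_mul, map_add, Finsupp.add_apply, map_smul, Finsupp.smul_apply, smul_eq_mul]
  constructor
  · rw [hexp]
    have h11 : D.t.repr Z (cs.simple i * w') = 0 := by
      by_contra h
      exact absurd (hsupp2 _ h) (lt_irrefl _)
    rw [h11, mul_zero, add_zero, key, Finsupp.sum, Finset.sum_eq_single w']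
    · rw [hZ.1, one_mul, hup, Module.Basis.repr_self, Finsupp.single_eq_same]
    · intro z hz hz1
      by_contra h12
      exact absurd (h7 z _ hz1 (Finsupp.mem_support_iff.1 hz) (right_ne_zero_of_mul h12)) (lt_irrefl _)
    · intro h12
      rw [Finsupp.notMem_support_iff.1 h12, zero_mul]
  · intro y hy
    rw [hexp] at hy
    by_cases h13 : D.t.repr Z y = 0
    · rw [h13, mul_zero, add_zero] at hy
      exact hsupp1 y hy
    · exact Or.inr (hsupp2 y h13)

/-- Correction of the coefficients in one length. -/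
theorem correct (h1 : H_1) (D : Hecke1 cs L H) (w : W) (c : W → H)
    (hc : ∀ y, cs.length y < cs.length w → KL D y (c y)) (Y : H) (hbar : D.bar Y = Y)
    (hY : Tri D w Y) (j : ℕ) : ∃ Y', D.bar Y' = Y' ∧ Tri D w Y' ∧
      ∀ y, y ≠ w → cs.length w ≤ cs.length y + j → DegLE (-1) (D.t.repr Y' y) := by
  classical
  induction j with
  | zero =>
    refine ⟨Y, hbar, hY, fun y hy hl => ?_⟩
    rw [hY.zero_of hy (by simpa using hl)]
    exact DegLE.zero _
  | succ j ih =>
    obtain ⟨Y, hbar, hY, hdeg⟩ := ih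
    choose μ hμ1 hμ2 using exists_mu
    set S := (D.t.repr Y).support.filter (fun y => cs.length y + (j + 1) = cs.length w) with hS
    have hlt : ∀ y ∈ S, cs.length y < cs.length w := by
      intro y hy
      rw [hS, Finset.mem_filter] at hy
      omega
    set Q := ∑ y ∈ S, μ (D.t.repr Y y) • c y with hQ
    have hrQ : ∀ z, D.t.repr Q z = ∑ y ∈ S, μ (D.t.repr Y y) * D.t.repr (c y) z := by
      intro z
      rw [hQ, map_sum, Finsupp.finsetSum_apply]
      refine Finset.sum_congr rfl fun y _ => ?_
      rw [map_smul, Finsupp.smul_apply, smul_eq_mul]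
    have hz0 : ∀ z, cs.length w < cs.length z + (j + 1) → D.t.repr Q z = 0 := by
      intro z hz
      rw [hrQ]
      refine Finset.sum_eq_zero fun y hy => ?_
      have hly : cs.length y + (j + 1) = cs.length w := by
        rw [hS, Finset.mem_filter] at hy
        exact hy.2
      rw [(hc y (hlt y hy)).2.1.zero_of (y := z) (by rintro rfl; omega) (by omega), mul_zero]
    refine ⟨Y - Q, ?_, ⟨?_, ?_⟩, ?_⟩
    · rw [map_sub, hbar, hQ, map_sum]
      congr 1
      refine Finset.sum_congr rfl fun y hy => ?_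
      rw [bar_smul h1, hμ1, (hc y (hlt y hy)).1]
    · rw [map_sub, Finsupp.sub_apply, hz0 w (by omega), sub_zero, hY.1]
    · intro z hz
      by_cases h0 : D.t.repr Y z = 0
      · rw [map_sub, Finsupp.sub_apply, h0, zero_sub, neg_ne_zero, hrQ] at hz
        obtain ⟨y, hy, hy2⟩ := Finset.exists_ne_zero_of_sum_ne_zero hz
        have h5 := hlt y hy
        rcases (hc y h5).2.1.2 z (right_ne_zero_of_mul hy2) with h6 | h6
        · rw [h6]
          exact Or.inr h5
        · exact Or.inr (h6.trans h5)
      · exact hY.2 z h0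
    · intro z hz hl
      rw [map_sub, Finsupp.sub_apply]
      rcases lt_or_eq_of_le hl with h2 | h2
      · rw [hz0 z h2, sub_zero]
        exact hdeg z hz (by omega)
      · have hself : ∀ y ∈ S, y ≠ z → D.t.repr (c y) z = 0 := by
          intro y hy hyz
          have hly : cs.length y + (j + 1) = cs.length w := by
            rw [hS, Finset.mem_filter] at hy
            exact hy.2
          exact (hc y (hlt y hy)).2.1.zero_of (Ne.symm hyz) (by omega)
        by_cases h3 : D.t.repr Y z = 0
        · have h4 : D.t.repr Q z = 0 := by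
            rw [hrQ]
            refine Finset.sum_eq_zero fun y hy => ?_
            rw [hself y hy, mul_zero]
            rintro rfl
            rw [hS, Finset.mem_filter, Finsupp.mem_support_iff] at hy
            exact hy.1 h3
          rw [h3, h4, sub_zero]
          exact DegLE.zero _
        · have hzS : z ∈ S := by
            rw [hS, Finset.mem_filter, Finsupp.mem_support_iff]
            exact ⟨h3, h2.symm⟩
          have h4 : D.t.repr Q z = μ (D.t.repr Y z) := by
            rw [hrQ, Finset.sum_eq_single z]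
            · rw [(hc z (hlt z hzS)).2.1.1, mul_one]
            · intro y hy hyz
              rw [hself y hy hyz, mul_zero]
            · intro h
              exact absurd hzS h
          rw [h4]
          exact hμ2 _

theorem exists_KL (h1 : H_1) (D : Hecke1 cs L H) (n : ℕ) : ∀ w, cs.length w = n → ∃ Y, KL D w Y := by
  classical
  induction n using Nat.strong_induction_on with
  | _ n ih =>
    intro w hw
    by_cases hw1 : w = 1
    · subst hw1
      have t1 : D.t 1 = 1 := (h1 I W H M cs L D.toHecke0).1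
      refine ⟨D.t 1, by rw [t1, map_one], ⟨?_, ?_⟩, ?_⟩
      · rw [Module.Basis.repr_self, Finsupp.single_eq_same]
      · intro y hy
        left
        by_contra h3
        apply hy
        rw [Module.Basis.repr_self, Finsupp.single_apply, if_neg (Ne.symm h3)]
      · intro y hy
        rw [Module.Basis.repr_self, Finsupp.single_apply, if_neg (Ne.symm hy)]
        exact DegLE.zero _
    · obtain ⟨i, hi⟩ := cs.exists_leftDescent_of_ne_one hw1
      rw [cs.isLeftDescent_iff] at hi
      have hww : cs.simple i * (cs.simple i * w) = w := cs.simple_mul_simple_cancel_left i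
      obtain ⟨Z, hZ1, hZ2, -⟩ := ih (cs.length (cs.simple i * w)) (by omega) (cs.simple i * w) rfl
      have hT := tri_mul h1 D i (cs.simple i * w) (by rw [hww]; omega) Z hZ2
      rw [hww] at hT
      have hex : ∀ y, ∃ Y, cs.length y < cs.length w → KL D y Y := by
        intro y
        by_cases hy : cs.length y < cs.length w
        · obtain ⟨Y, hY⟩ := ih (cs.length y) (by omega) y rfl
          exact ⟨Y, fun _ => hY⟩
        · exact ⟨0, fun h => absurd h hy⟩
      choose c hc using hex
      obtain ⟨Y, hY1, hY2, hY3⟩ := correct h1 D w c hc (cs0 D i * Z)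
        (by rw [map_mul, bar_cs0 h1, hZ1]) hT (cs.length w)
      exact ⟨Y, hY1, hY2, fun y hy => hY3 y hy (by omega)⟩

end Pool.Agent.Helper97.RA.XC

namespace Pool.Agent.Helper97.RA

open Pool.Agent.Helper15.RA

theorem h_xc (h1 : H_1) : X_C := by
  classical
  intro I W H _ _ _ M cs L _ D
  choose c hc using fun w => XC.exists_KL h1 D (cs.length w) w rfl
  refine ⟨{ toHecke1 := D, c := c, bar_c := fun w => (hc w).1, c_sub := fun w y => ?_ }⟩
  rw [map_sub, Finsupp.sub_apply, Module.Basis.repr_self, Finsupp.single_apply]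
  by_cases h : w = y
  · subst h
    rw [if_pos rfl, (hc w).2.1.1, sub_self]
    exact DegLE.zero _
  · rw [if_neg h, sub_zero]
    exact (hc w).2.2 y (Ne.symm h)

end Pool.Agent.Helper97.RA
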